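import Pool.Agent.N874.QM.Stm
import Pool.Agent.N891.PQ.TwA
import Pool.Agent.N874.PP.Lat

/-!
# Project QM (helper874), part CORE: the relaxed Selmer group over the rational numbers

After `N891/PQ/Tw.lean` of helper891.
-/

set_option autoImplicit false
set_option linter.all false

open Polynomial IsDedekindDomain Matrix NumberField WithZero
open scoped Classical

namespace Pool.Agent.N999.QM

open Pool.Agent.N352.PJ (Mt Typ dd)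
open Pool.Agent.N874.PP (Ev Sq1 U0 S_LIN)
open Pool.Agent.N783.PQ
open Pool.Agent.N891.PQ
open Pool.Agent.N874.QM (S_CORE)

/-- the statement `S_LB` for fixed `g` and `κ` -/
def LBk (g κ : ℕ) : Prop := ∀ (L : Type) [Field L] [NumberField L] (f : ℤ[X])
  (θ : L) (B N : ℕ) (S : Finset ℕ) (h : ℕ → ℤ[X]), ∀ hG : IsGen g f θ, Ht g B f →
  2 ^ κ * B ≤ 4 ^ N → (∀ q ∈ S, Cg q f (X * h q)) →
  ∀ (α : L) (e : Fin (2 * g + 1) → L) (A A' : Mt g ℤ), α ≠ 0 → IsSquare (Algebra.norm ℚ α) →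
  Lat hG α e A A' → (∀ q ∈ S, DistMod q A A') →
  (¬ IsSquare α ∨ (α = 1 ∧ ∀ j : ℤ, (∃ v : Fin (2 * g + 1) → ℤ, (j : L) = ∑ i, (v i : L) * e i) →
    j = 0 ∨ (B : ℤ) ≤ j ^ 2)) → LBad g N κ S h f

/-- A prime ideal lies over one prime number only. -/
lemma ov_unique {L : Type} [Field L] [NumberField L] {𝔓 : HeightOneSpectrum (𝓞 L)} {p q : ℕ}
    (hp : p.Prime) (hq : q.Prime) (h1 : Ov p 𝔓) (h2 : Ov q 𝔓) : p = q := by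
  by_contra hne
  have hc : IsCoprime (p : ℤ) (q : ℤ) := Nat.isCoprime_iff_coprime.2 ((Nat.coprime_primes hp hq).2 hne)
  obtain ⟨a, b, hab⟩ := hc
  have h3 : ((a : 𝓞 L) * (p : 𝓞 L) + (b : 𝓞 L) * (q : 𝓞 L)) ∈ 𝔓.asIdeal :=
    Ideal.add_mem _ (Ideal.mul_mem_left _ _ h1) (Ideal.mul_mem_left _ _ h2)
  have h4 : (a : 𝓞 L) * (p : 𝓞 L) + (b : 𝓞 L) * (q : 𝓞 L) = 1 := by
    have := congrArg (Int.cast : ℤ → 𝓞 L) hab
    push_cast at this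
    exact this
  rw [h4] at h3
  exact 𝔓.isPrime.ne_top ((Ideal.eq_top_iff_one _).2 h3)

theorem sel_core {L : Type} [Field L] [NumberField L] {g B N W κ : ℕ} {f f₁ : ℤ[X]} {θ : L}
    {S : Finset ℕ} {r : ℕ → ℤ[X]}
    (hCLS : S_CLS) (hLIN : S_LIN) (hEXQ : S_EXQ) (hNS : S_NS) (hPARQ : S_PARQ)
    (hREC : S_REC) (hSD : S_SD) (hTV : S_TV)
    (hLB : LBk g κ) (hg : 1 ≤ g) (hc : IsGen g f θ) (hsq : Squarefree (dsc g f))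
    (hS : GoodS g W S r)
    (hF : Fam g B W f₁ S r f) (hBN : 2 ^ κ * B ≤ 4 ^ N) (hnb : ¬ LBad g N κ S r f) :
    ∃ J ⊆ S, ∀ α : L, α ≠ 0 → IsSquare (Algebra.norm ℚ α) →
      (∀ 𝔓 : HeightOneSpectrum (𝓞 L), (∀ q ∈ J, ¬ Ov q 𝔓) → Ev 𝔓 α) →
      (∀ q ∈ J, ∀ 𝔓 : HeightOneSpectrum (𝓞 L), Ov q 𝔓 → 𝔓.valuation L θ = 1 →
        U0 𝔓 ((q : L) * θ) α) →
      (∃ h₀ : ℚ[X], aeval θ h₀ = α ∧ LocIm ℚ_[2] (ov ℚ_[2] f) (oq ℚ_[2] h₀) ∧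
        LocIm ℝ (ov ℝ f) (oq ℝ h₀)) → IsSquare α := by
  have hqp : ∀ q ∈ S, q.Prime := fun q hq => (hS q hq).1
  have hq2 : ∀ q ∈ S, q ≠ 2 := by
    intro q hq h
    have := (hS q hq).2.2.2.1
    rw [h] at this
    omega
  have hex : ∀ q ∈ S, ∃ 𝔓₁ 𝔮 : HeightOneSpectrum (𝓞 L), Ov q 𝔓₁ ∧ Ov q 𝔮 ∧
      𝔓₁.valuation L θ < 1 ∧ 𝔮.valuation L θ = 1 ∧ ¬ Ev 𝔮 ((q : L) * θ) ∧
      ∀ 𝔓 : HeightOneSpectrum (𝓞 L), Ov q 𝔓 → 𝔓 = 𝔓₁ ∨ 𝔓 = 𝔮 := by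
    intro q hq
    obtain ⟨𝔓₁, 𝔮, a1, a2, a3, a4, a5, a6, a7⟩ :=
      hEXQ g W L f θ S r hg hc hsq hS q hq (hF.con q hq)
    refine ⟨𝔓₁, 𝔮, a1, a2, a3, a4, not_ev_exp ?_, a7⟩
    rw [map_mul, a6, a4, mul_one]
  haveI hne : Nonempty (HeightOneSpectrum (𝓞 L)) := by
    obtain ⟨m, hm⟩ := Ideal.exists_maximal (𝓞 L)
    exact ⟨⟨m, hm.isPrime, Ring.ne_bot_of_isMaximal_of_not_isField hm
      (NumberField.RingOfIntegers.not_isField L)⟩⟩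
  obtain ⟨𝔭, h𝔭⟩ : ∃ 𝔭 : ℕ → HeightOneSpectrum (𝓞 L), 𝔭 = fun q =>
    if hq : q ∈ S then (hex q hq).choose else Classical.arbitrary _ := ⟨_, rfl⟩
  obtain ⟨𝔮, h𝔮⟩ : ∃ 𝔮 : ℕ → HeightOneSpectrum (𝓞 L), 𝔮 = fun q =>
    if hq : q ∈ S then (hex q hq).choose_spec.choose else Classical.arbitrary _ := ⟨_, rfl⟩
  have hpq : ∀ q ∈ S, Ov q (𝔭 q) ∧ Ov q (𝔮 q) ∧ (𝔭 q).valuation L θ < 1 ∧
      (𝔮 q).valuation L θ = 1 ∧ ¬ Ev (𝔮 q) ((q : L) * θ) ∧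
      ∀ 𝔓 : HeightOneSpectrum (𝓞 L), Ov q 𝔓 → 𝔓 = 𝔭 q ∨ 𝔓 = 𝔮 q := by
    intro q hq
    have h := (hex q hq).choose_spec.choose_spec
    rw [h𝔭, h𝔮]
    simp only [dif_pos hq]
    exact h
  -- the group `M`
  obtain ⟨M, hMd⟩ : ∃ M : Set L, M = {α | α ≠ 0 ∧ IsSquare (Algebra.norm ℚ α) ∧
    (∀ 𝔓 : HeightOneSpectrum (𝓞 L), (∀ q ∈ S, 𝔓 ≠ 𝔮 q) → Ev 𝔓 α) ∧
    ∃ h₀ : ℚ[X], aeval θ h₀ = α ∧ LocIm ℚ_[2] (ov ℚ_[2] f) (oq ℚ_[2] h₀) ∧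
      LocIm ℝ (ov ℝ f) (oq ℝ h₀)} := ⟨_, rfl⟩
  have hMm : ∀ α, α ∈ M ↔ α ≠ 0 ∧ IsSquare (Algebra.norm ℚ α) ∧
    (∀ 𝔓 : HeightOneSpectrum (𝓞 L), (∀ q ∈ S, 𝔓 ≠ 𝔮 q) → Ev 𝔓 α) ∧
    ∃ h₀ : ℚ[X], aeval θ h₀ = α ∧ LocIm ℚ_[2] (ov ℚ_[2] f) (oq ℚ_[2] h₀) ∧
      LocIm ℝ (ov ℝ f) (oq ℝ h₀) := by
    intro α
    rw [hMd]
    rfl
  obtain ⟨ψ, hψd⟩ : ∃ ψ : L → (S → ZMod 2 × ZMod 2), ψ = fun (α : L) (q : S) =>
    cl (𝔮 (q : ℕ)) (((q : ℕ) : L) * θ) α := ⟨_, rfl⟩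
  have hϖ : ∀ q ∈ S, (q : L) * θ ≠ 0 := by
    intro q hq h0
    exact (hpq q hq).2.2.2.2.1 (by rw [h0]; exact ⟨0, by simp⟩)
  have hψ : ∀ α β : L, α ≠ 0 → β ≠ 0 → ψ (α * β) = ψ α + ψ β := by
    intro α β hα hβ
    rw [hψd]
    funext q
    have h := hCLS L q (𝔮 q) ((q : L) * θ) (hqp q q.2) (hq2 q q.2) (hpq q q.2).2.1
      (hϖ q q.2) (hpq q q.2).2.2.2.2.1 α β hα hβ
    exact Prod.ext (cl_add_aux h.1) (cl_add_aux h.2)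
  have hEvmul : ∀ (𝔓 : HeightOneSpectrum (𝓞 L)) (x y : L), Ev 𝔓 x → Ev 𝔓 y → Ev 𝔓 (x * y) := by
    rintro 𝔓 x y ⟨u, hu⟩ ⟨v, hv⟩
    exact ⟨u * v, by rw [map_mul, map_mul, hu, hv, mul_pow]⟩
  have hoq : ∀ (F : Type) [Field F] [CharZero F] (a b : ℚ[X]), oq F (a * b) = oq F a * oq F b := by
    intro F _ _ a b
    exact Polynomial.map_mul _
  have hMmul : ∀ α β, α ∈ M → β ∈ M → α * β ∈ M := by
    intro α β hα hβ
    rw [hMm] at hα hβ ⊢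
    obtain ⟨h1, h2, h3, a, h4, h5, h6⟩ := hα
    obtain ⟨h1', h2', h3', b, h4', h5', h6'⟩ := hβ
    refine ⟨mul_ne_zero h1 h1', ?_, fun 𝔓 h𝔓 => hEvmul 𝔓 _ _ (h3 𝔓 h𝔓) (h3' 𝔓 h𝔓), a * b, ?_, ?_, ?_⟩
    · rw [map_mul]
      exact h2.mul h2'
    · rw [map_mul, h4, h4']
    · rw [hoq]
      exact LocIm.mul h5 h5'
    · rw [hoq]
      exact LocIm.mul h6 h6'
  have hM1 : (1 : L) ∈ M := by
    rw [hMm]
    refine ⟨one_ne_zero, by rw [map_one]; exact IsSquare.one, fun 𝔓 _ => ⟨1, by rw [map_one, one_pow]⟩,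
      1, by rw [map_one], ?_, ?_⟩
    · have e : oq ℚ_[2] 1 = 1 := Polynomial.map_one _
      rw [e]
      exact locIm_one _ _
    · have e : oq ℝ 1 = 1 := Polynomial.map_one _
      rw [e]
      exact locIm_one _ _
  let Λ : AddSubgroup (S → ZMod 2 × ZMod 2) :=
    { carrier := {l | ∃ α ∈ M, ψ α = l}
      add_mem' := by
        rintro _ _ ⟨α, hα, rfl⟩ ⟨β, hβ, rfl⟩
        exact ⟨α * β, hMmul α β hα hβ, hψ α β ((hMm α).1 hα).1 ((hMm β).1 hβ).1⟩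
      zero_mem' := by
        refine ⟨1, hM1, ?_⟩
        have h := hψ 1 1 one_ne_zero one_ne_zero
        rw [mul_one] at h
        exact left_eq_add.1 h
      neg_mem' := by
        rintro _ ⟨α, hα, rfl⟩
        refine ⟨α, hα, ?_⟩
        rw [eq_neg_iff_add_eq_zero]
        funext Q
        exact Prod.ext (CharTwo.add_self_eq_zero _) (CharTwo.add_self_eq_zero _) }
  have hiso : ∀ l ∈ Λ, ∑ q : S, (l q).1 * (l q).2 = 0 := by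
    rintro _ ⟨α, hα, rfl⟩
    obtain ⟨b1, b2, b3, h₀, b4, b5, b6⟩ := (hMm α).1 hα
    have h := hREC g W L f θ S r hg hc hsq hS (fun q hq => hF.con q hq) 𝔮
      (fun q hq => ⟨(hpq q hq).2.1, (hpq q hq).2.2.2.1⟩) h₀ (by rw [b4]; exact b1)
      (by rw [b4]; exact b2) (by rw [b4]; exact b3) b5 b6
    rw [b4] at h
    have e1 : ∑ q : S, (ψ α q).1 * (ψ α q).2 = ∑ q ∈ S,
        (if ¬ Ev (𝔮 q) α ∧ ¬ Sq1 (𝔮 q) (α * ((q : L) * θ)) then (1 : ZMod 2) else 0) := by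
      rw [← Finset.sum_coe_sort S]
      refine Finset.sum_congr rfl fun q _ => ?_
      simp only [hψd, cl]
      by_cases he : Ev (𝔮 q) α
      · rw [if_pos he, zero_mul, if_neg (fun h => h.1 he)]
      · by_cases hs : Sq1 (𝔮 q) (α * (((q : ℕ) : L) * θ))
        · have hu : U0 (𝔮 q) (((q : ℕ) : L) * θ) α := ⟨fun h => absurd h he, fun _ => hs⟩
          rw [if_neg he, if_pos hu, mul_zero, if_neg (fun h => h.2 hs)]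
        · have hu : ¬ U0 (𝔮 q) (((q : ℕ) : L) * θ) α := fun h => hs (h.2 he)
          rw [if_neg he, if_neg hu, mul_one, if_pos ⟨he, hs⟩]
    rw [e1, Finset.sum_ite, Finset.sum_const_zero, add_zero, Finset.sum_const, nsmul_eq_mul,
      mul_one]
    exact (ZMod.natCast_eq_zero_iff_even).2 h
  obtain ⟨J, hJ⟩ := hLIN S Λ hiso
  obtain ⟨J', hJ'd⟩ : ∃ J' : Finset ℕ, J' = S.filter fun q => ∃ h : q ∈ S, (⟨q, h⟩ : S) ∈ J :=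
    ⟨_, rfl⟩
  have hJ'S : J' ⊆ S := by rw [hJ'd]; exact Finset.filter_subset _ _
  refine ⟨J', hJ'S, fun α hα hN hev hU hloc => ?_⟩
  have h2loc : ∀ q ∈ J', U0 (𝔮 q) ((q : L) * θ) α ∧ Ev (𝔭 q) α := by
    intro q hq
    exact ⟨hU q hq _ (hpq q (hJ'S hq)).2.1 (hpq q (hJ'S hq)).2.2.2.1,
      hPARQ g W L f θ S r hg hc hsq hS q (hJ'S hq) (hF.con q (hJ'S hq)) α hα hN _
        (hpq q (hJ'S hq)).1 (hpq q (hJ'S hq)).2.2.1⟩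
  have hαM : α ∈ M := by
    rw [hMm]
    refine ⟨hα, hN, fun 𝔓 h𝔓 => ?_, hloc⟩
    by_cases h : ∀ q ∈ J', ¬ Ov q 𝔓
    · exact hev 𝔓 h
    · push Not at h
      obtain ⟨q, hq, hq𝔓⟩ := h
      rcases (hpq q (hJ'S hq)).2.2.2.2.2 𝔓 hq𝔓 with rfl | rfl
      · exact (h2loc q hq).2
      · exact absurd rfl (h𝔓 q (hJ'S hq))
  have hz : ψ α = 0 := by
    refine hJ _ ⟨α, hαM, rfl⟩ (fun q hq => ?_) (fun q hq => ?_)
    · have hqJ : (q : ℕ) ∈ J' := by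
        rw [hJ'd]
        exact Finset.mem_filter.2 ⟨q.2, q.2, hq⟩
      rw [hψd]
      exact if_pos (h2loc q hqJ).1
    · have hqJ : (q : ℕ) ∉ J' := by
        rw [hJ'd]
        exact fun h => hq (Finset.mem_filter.1 h).2.2
      rw [hψd]
      refine if_pos (hev (𝔮 q) fun q' hq' hov => ?_)
      have he := ov_unique (hqp q' (hJ'S hq')) (hqp q q.2) hov (hpq q q.2).2.1
      rw [he] at hq'
      exact hqJ hq'
  have hz1 : ∀ q ∈ S, Ev (𝔮 q) α ∧ U0 (𝔮 q) ((q : L) * θ) α := by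
    intro q hq
    have h1 := congrFun hz ⟨q, hq⟩
    rw [hψd] at h1
    have h2 := congrArg Prod.fst h1
    have h3 := congrArg Prod.snd h1
    constructor
    · by_contra hn
      have : (if Ev (𝔮 q) α then (0 : ZMod 2) else 1) = 0 := h2
      rw [if_neg hn] at this
      exact one_ne_zero this
    · by_contra hn
      have : (if U0 (𝔮 q) ((q : L) * θ) α then (0 : ZMod 2) else 1) = 0 := h3
      rw [if_neg hn] at this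
      exact one_ne_zero this
  have hEv : ∀ 𝔓 : HeightOneSpectrum (𝓞 L), Ev 𝔓 α := by
    intro 𝔓
    by_cases h : ∀ q ∈ S, 𝔓 ≠ 𝔮 q
    · exact ((hMm α).1 hαM).2.2.1 𝔓 h
    · push Not at h
      obtain ⟨q, hq, rfl⟩ := h
      exact (hz1 q hq).1
  have hSq : ∀ q ∈ S, ∀ 𝔓 : HeightOneSpectrum (𝓞 L), Ov q 𝔓 → Sq1 𝔓 α := by
    intro q hq
    refine hNS g W L f θ S r hg hc hsq hS q hq (hF.con q hq) α hα hN
      (fun 𝔓 _ _ => hEv 𝔓) (fun 𝔓 h𝔓 hv => ?_)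
    rcases (hpq q hq).2.2.2.2.2 𝔓 h𝔓 with rfl | rfl
    · exact absurd hv (hpq q hq).2.2.1.ne
    · exact (hz1 q hq).2.1 (hz1 q hq).1
  by_contra hns
  obtain ⟨e, A, A', he, hL⟩ := hSD g L f θ hc hsq α hα hEv
  exact hnb (hLB L f θ B N S r hc hF.ht hBN (fun q hq => hF.con q hq) α e A A' hα hN hL
    (fun q hq => hTV g W L f θ S r hg hc hsq hS α e A A' hα he hL q hq (hF.con q hq) (hSq q hq))
    (Or.inl hns))


/-- From the absence of bad elements to a set of primes for which the relaxed Selmer group is zero. -/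
theorem core (hCLS : S_CLS) (hLIN : S_LIN) (hEXQ : S_EXQ) (hNS : S_NS) (hPARQ : S_PARQ)
    (hREC : S_REC) (hSD : S_SD) (hTV : S_TV) (hLB : S_LB) (hSQF : S_SQF) : S_CORE := by
  intro g hg
  obtain ⟨κ₁, hκ₁⟩ := hLB g hg
  obtain ⟨κ₂, hκ₂⟩ := hSQF g hg
  refine ⟨max κ₁ κ₂, fun B N W f₁ S r f hf₁ hS hF hBN hB hnb => ?_⟩
  have hBN1 : 2 ^ κ₁ * B ≤ 4 ^ N :=
    (Nat.mul_le_mul_right _ (Nat.pow_le_pow_right (by norm_num) (le_max_left _ _))).trans hBN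
  have hBN2 : 2 ^ κ₂ * B ≤ 4 ^ N :=
    (Nat.mul_le_mul_right _ (Nat.pow_le_pow_right (by norm_num) (le_max_right _ _))).trans hBN
  have hnb1 : ¬ LBad g N κ₁ S r f := fun h => hnb (LBad.mono (le_max_left _ _) h)
  have hnb2 : ¬ LBad g N κ₂ S r f := fun h => hnb (LBad.mono (le_max_right _ _) h)
  have hsq : Squarefree (dsc g f) := hκ₂ B N W f₁ S r f hf₁ hS hF hBN2 hB hnb2
  refine ⟨hsq, fun L _ _ θ hc => ?_⟩
  exact sel_core hCLS hLIN hEXQ hNS hPARQ hREC hSD hTV hκ₁ hg hc hsq hS hF hBN1 hnb1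

end Pool.Agent.N999.QM
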